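import Mathlib

set_option autoImplicit false

open Finset
open scoped Classical

namespace Pool.Agent.Results.MP_e31007_co.BipartiteCounterexample

/-- The Randic index: the sum of `1 / √(d u * d v)` over the edges `u v`. The double sum counts every
edge twice, hence the factor `1 / 2`. -/
noncomputable def randic {V : Type} [Fintype V] (G : SimpleGraph V) : ℝ :=
  (1 / 2) * ∑ u, ∑ v, if G.Adj u v then 1 / √((G.degree u : ℝ) * (G.degree v : ℝ)) else 0

/-- For every `n ≥ 11` some connected graph with `n` vertices violates the conjectured bound. -/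
theorem result : ∀ n : ℕ, 11 ≤ n → ∃ (V : Type) (_ : Fintype V) (G : SimpleGraph V),
    Fintype.card V = n ∧ G.Connected ∧
      (n : ℝ) - 1 + √((n : ℝ) - 1) < randic G + (G.indepNum : ℝ) := by
  intro n hn
  obtain ⟨m, rfl⟩ : ∃ m, n = m + 2 := ⟨n - 2, by omega⟩
  have hm : 9 ≤ m := by omega
  have hm' : (9 : ℝ) ≤ m := by exact_mod_cast hm
  set G : SimpleGraph (Fin 2 ⊕ Fin m) := completeBipartiteGraph (Fin 2) (Fin m) with hG
  have dl : ∀ i : Fin 2, G.degree (Sum.inl i) = m := by
    intro i
    rw [← SimpleGraph.card_neighborFinset_eq_degree]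
    have : G.neighborFinset (Sum.inl i) = univ.image (Sum.inr : Fin m → Fin 2 ⊕ Fin m) := by
      ext x
      rcases x with x | x <;> simp [hG]
    rw [this, card_image_of_injective _ Sum.inr_injective, card_univ, Fintype.card_fin]
  have dr : ∀ i : Fin m, G.degree (Sum.inr i) = 2 := by
    intro i
    rw [← SimpleGraph.card_neighborFinset_eq_degree]
    have : G.neighborFinset (Sum.inr i) = univ.image (Sum.inl : Fin 2 → Fin 2 ⊕ Fin m) := by
      ext x
      rcases x with x | x <;> simp [hG]
    rw [this, card_image_of_injective _ Sum.inl_injective, card_univ, Fintype.card_fin]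
  refine ⟨Fin 2 ⊕ Fin m, inferInstance, G, ?_, ?_, ?_⟩
  · rw [Fintype.card_sum, Fintype.card_fin, Fintype.card_fin]; omega
  · have h0 : (⟨0, by omega⟩ : Fin m) = ⟨0, by omega⟩ := rfl
    rw [SimpleGraph.connected_iff_exists_forall_reachable]
    refine ⟨Sum.inl 0, ?_⟩
    have hr : ∀ j : Fin m, ∀ i : Fin 2, G.Adj (Sum.inl i) (Sum.inr j) := by
      intro j i; simp [hG]
    intro w
    rcases w with i | j
    · exact (hr ⟨0, by omega⟩ 0).reachable.trans (hr ⟨0, by omega⟩ i).symm.reachable
    · exact (hr j 0).reachable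
  · have hR : randic G = √(2 * m) := by
      unfold randic
      rw [Fintype.sum_sum_type]
      simp only [Fintype.sum_sum_type, dl, dr]
      simp only [hG, completeBipartiteGraph_adj]
      simp only [Sum.isLeft_inl, Sum.isRight_inl, Sum.isLeft_inr, Sum.isRight_inr]
      simp
      have h1 : (0 : ℝ) ≤ m := by positivity
      have h2 : √(m : ℝ) * √2 = √(2 * m) := by
        rw [← Real.sqrt_mul h1, mul_comm]
      have h3 : √(m : ℝ) ≠ 0 := by
        rw [Real.sqrt_ne_zero']; linarith
      have h4 : √(2 : ℝ) ≠ 0 := by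
        rw [Real.sqrt_ne_zero']; norm_num
      have h5 : √(m : ℝ) ^ 2 = m := Real.sq_sqrt h1
      have h6 : √(2 : ℝ) ^ 2 = 2 := Real.sq_sqrt (by norm_num)
      field_simp
      nlinarith
    have hα : m ≤ G.indepNum := by
      have hs : G.IsIndepSet (univ.image (Sum.inr : Fin m → Fin 2 ⊕ Fin m) : Finset _) := by
        intro x hx y hy _
        simp only [coe_image, coe_univ, Set.image_univ, Set.mem_range] at hx hy
        obtain ⟨a, rfl⟩ := hx
        obtain ⟨b, rfl⟩ := hy
        simp [hG]
      have := hs.card_le_indepNum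
      rwa [card_image_of_injective _ Sum.inr_injective, card_univ, Fintype.card_fin] at this
    have hα' : (m : ℝ) ≤ G.indepNum := by exact_mod_cast hα
    rw [hR]
    push_cast
    have key : 1 + √((m : ℝ) + 2 - 1) < √(2 * m) := by
      apply Real.lt_sqrt_of_sq_lt
      have h1 : √((m : ℝ) + 2 - 1) ^ 2 = (m : ℝ) + 2 - 1 := Real.sq_sqrt (by linarith)
      have h2 : 2 * √((m : ℝ) + 2 - 1) < (m : ℝ) - 2 := by
        have h3 : 0 ≤ √((m : ℝ) + 2 - 1) := Real.sqrt_nonneg _
        nlinarith
      nlinarith
    linarith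

end Pool.Agent.Results.MP_e31007_co.BipartiteCounterexample
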